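import Pool.Agent.Q39.EP.DilFinal

/-!
# Exponent pairs: the Hausdorff dimension of the set of the bad multipliers of an admissible function

Let `g` be a function which is admissible at every scale `N ≥ 2`, with the parameter `F(N) ≥ N` (no
upper bound for `F(N)` is assumed), and let `f : ℕ → ℝ` be arbitrary (for instance `f = 0`). For every
`ε > 0` the set of the real `θ` for which the bound `K N^(1/2) F(N)^ε` for the sums of `e(f(n) + θ g(n))`
over all intervals inside all `[N, 2N]` fails for every constant `K` has Hausdorff dimension at most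
`1 - 2ε` (dimension zero for `ε ≥ 1/2`). All the multiples `θ g`, `θ ≠ 0`, are admissible.

Outline. The mean square over `θ` of a sum over a block of `M` integers in `[N, 2N]` is
`O(M log M)`, because `|g(m) - g(n)| ≥ c |m - n|`; a maximal inequality (chaining over dyadic blocks)
gives the same for all subintervals, up to logarithms. By partial summation large values persist on
intervals of length `1 / F(N)`. So at the scale `N` the bad set is covered by
`O((log N)^4 F(N)^(1 - 2ε))` intervals of length `1 / F(N)`, and `F(N) ≥ N`.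
-/

set_option autoImplicit false

namespace Pool.Agent.Results.MP_493793_nt.MultipliersDimension

open MeasureTheory

/-- `g` satisfies on `[N, 2N]` the inequalities of the problem with the parameter `F` and the constants
`c j`, `C j`. -/
def Admissible (c C : ℕ → ℝ) (N F : ℝ) (g : ℝ → ℝ) : Prop :=
  ContDiffOn ℝ (⊤ : ℕ∞) g (Set.Icc N (2 * N)) ∧
  ∀ j : ℕ, ∀ x ∈ Set.Icc N (2 * N),
    c j * F / N ^ j ≤ |iteratedDerivWithin j g (Set.Icc N (2 * N)) x| ∧
    |iteratedDerivWithin j g (Set.Icc N (2 * N)) x| ≤ C j * F / N ^ j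

/-- `e(x) = exp(2πix)` -/
noncomputable def e (x : ℝ) : ℂ := Complex.exp (2 * (Real.pi : ℂ) * Complex.I * (x : ℂ))

/-- For the multiplier `θ` the bound `K N^(1/2) F(N)^ε` holds with some constant `K`, for all `N ≥ 2` and
all intervals inside `[N, 2N]`. -/
def BoundHolds (f : ℕ → ℝ) (g F : ℝ → ℝ) (ε θ : ℝ) : Prop :=
  ∃ K : ℝ, ∀ N : ℝ, 2 ≤ N → ∀ N1 N2 : ℕ, N ≤ N1 → (N2 : ℝ) ≤ 2 * N →
    ‖∑ n ∈ Finset.Icc N1 N2, e (f n + θ * g n)‖ ≤ K * N ^ (1 / 2 : ℝ) * F N ^ ε

theorem result (c C : ℕ → ℝ) (hc : ∀ j, 0 < c j) (F g : ℝ → ℝ) (hF : ∀ N : ℝ, 2 ≤ N → N ≤ F N)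
    (hg : ∀ N : ℝ, 2 ≤ N → Admissible c C N (F N) g) :
    (∀ f : ℕ → ℝ, ∀ ε : ℝ, 0 < ε →
      dimH {θ : ℝ | ¬ BoundHolds f g F ε θ} ≤ ENNReal.ofReal (1 - 2 * ε)) ∧
    (∀ θ : ℝ, θ ≠ 0 → ∀ N : ℝ, 2 ≤ N →
      Admissible (fun j => |θ| * c j) (fun j => |θ| * C j) N (F N) (fun x => θ * g x)) := by
  constructor
  · intro f ε hε
    exact Pool.Agent.Q39.EP.dim_fails (hc 1) hF
      (fun N hN x y hx hy => Pool.Agent.Q39.EP.slope_of_adm (hg N hN) x y hx hy) f ε hε
  · intro θ _ N hN
    obtain ⟨h1, h2⟩ := hg N hN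
    refine ⟨contDiffOn_const.mul h1, fun j x hx => ?_⟩
    obtain ⟨h3, h4⟩ := h2 j x hx
    rw [iteratedDerivWithin_const_mul_field, abs_mul]
    constructor
    · calc |θ| * c j * F N / N ^ j = |θ| * (c j * F N / N ^ j) := by ring
        _ ≤ _ := mul_le_mul_of_nonneg_left h3 (abs_nonneg θ)
    · calc |θ| * |iteratedDerivWithin j g (Set.Icc N (2 * N)) x| ≤ |θ| * (C j * F N / N ^ j) :=
            mul_le_mul_of_nonneg_left h4 (abs_nonneg θ)
        _ = _ := by ring

end Pool.Agent.Results.MP_493793_nt.MultipliersDimension
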