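import Pool.Agent.Q39.EP.Main

/-!
# The exponent pair bound for almost all polynomial perturbations of every admissible function

Let `k ≥ 2`. For an arbitrary sequence `g(n)` of complex numbers of absolute value at most one, all the
sums of `g(n) e(α_1 n + … + α_k n^k)` over intervals inside `[N, 2N]` are at most `N^(1/2) V`, for all
`(α_1, …, α_k)` in the unit cube outside a set of measure at most `5 k! 1600^k / V^(2k)`. If `f` is
admissible at scale `N` with a parameter `F ≥ L N^k`, where `L` depends only on `k` and on the constants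
`c_j`, then all the functions `f(x) + α_1 x + … + α_k x^k`, `|α_j| ≤ 1`, are admissible as well, with
the same `F` and the constants `c_j / 2`, `2 C_j`; so the bound of `(0,0)` holds for them, with the
constant `1` and every `ε`, outside a set of measure at most `5 k! 1600^k F^(-2kε)`.

Outline. The moment of order `2k` over the cube is bounded by the number of the pairs of `k`-tuples with
equal power sums up to `k`, which are permutations of each other. Since `2k > 2`, a chaining argument over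
dyadic blocks gives the same bound for the maximum over all intervals, without a logarithm.
-/

set_option autoImplicit false

namespace Pool.Agent.Results.MP_493793_nt.PolynomialPerturbations

open MeasureTheory

/-- `f` satisfies on `[N, 2N]` the inequalities of the problem with the parameter `F` and the constants
`c j`, `C j`. -/
def Admissible (c C : ℕ → ℝ) (N F : ℝ) (f : ℝ → ℝ) : Prop :=
  ContDiffOn ℝ (⊤ : ℕ∞) f (Set.Icc N (2 * N)) ∧
  ∀ j : ℕ, ∀ x ∈ Set.Icc N (2 * N),
    c j * F / N ^ j ≤ |iteratedDerivWithin j f (Set.Icc N (2 * N)) x| ∧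
    |iteratedDerivWithin j f (Set.Icc N (2 * N)) x| ≤ C j * F / N ^ j

/-- the polynomial `α_1 x + α_2 x^2 + … + α_k x^k` (the coefficient of `x^(j+1)` is `α j`, `j < k`) -/
noncomputable def poly {k : ℕ} (α : Fin k → ℝ) (x : ℝ) : ℝ := ∑ j : Fin k, α j * x ^ (j.val + 1)

/-- `e(x) = exp(2πix)` -/
noncomputable def e (x : ℝ) : ℂ := Complex.exp (2 * (Real.pi : ℂ) * Complex.I * (x : ℂ))

theorem result (k : ℕ) (hk : 2 ≤ k) :
    (∀ N : ℝ, 1 ≤ N → ∀ g : ℕ → ℂ, (∀ n, ‖g n‖ ≤ 1) → ∀ V : ℝ, 0 < V →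
      volume {α : Fin k → ℝ | (∀ j, α j ∈ Set.Icc (0 : ℝ) 1) ∧
        ∃ N1 N2 : ℕ, N ≤ N1 ∧ (N2 : ℝ) ≤ 2 * N ∧
          N ^ (1 / 2 : ℝ) * V < ‖∑ n ∈ Finset.Icc N1 N2, g n * e (poly α n)‖} ≤
      ENNReal.ofReal (5 * k.factorial * 1600 ^ k / V ^ (2 * k))) ∧
    (∀ c C : ℕ → ℝ, (∀ j, 0 < c j) → ∃ L : ℝ, 0 < L ∧ ∀ N F : ℝ, ∀ f : ℝ → ℝ,
      1 ≤ N → N ≤ F → L * N ^ k ≤ F → Admissible c C N F f →
      (∀ α : Fin k → ℝ, (∀ j, |α j| ≤ 1) →
        Admissible (fun j => c j / 2) (fun j => 2 * C j) N F (fun x => f x + poly α x)) ∧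
      ∀ ε : ℝ, 0 < ε →
        volume {α : Fin k → ℝ | (∀ j, α j ∈ Set.Icc (0 : ℝ) 1) ∧
          ∃ N1 N2 : ℕ, N ≤ N1 ∧ (N2 : ℝ) ≤ 2 * N ∧
            N ^ (1 / 2 : ℝ) * F ^ ε < ‖∑ n ∈ Finset.Icc N1 N2, e (f n + poly α n)‖} ≤
        ENNReal.ofReal (5 * k.factorial * 1600 ^ k * F ^ (-(2 * k * ε)))) := by
  have hph : ∀ (α : Fin k → ℝ) (n : ℕ), poly α (n : ℝ) = Pool.Agent.Q39.EP.ph α n := fun _ _ => rfl
  have hee : ∀ x : ℝ, e x = Pool.Agent.Q39.EP.e x := fun _ => rfl
  refine ⟨fun N hN g hg V hV => ?_, fun c C hc => ?_⟩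
  · exact Pool.Agent.Q39.EP.bad k hk N hN g hg V hV
  · obtain ⟨L, hL0, hL⟩ := Pool.Agent.Q39.EP.adm_add k c C hc
    refine ⟨L, hL0, fun N F f hN hNF hLF hf => ⟨fun α hα => ?_, fun ε hε => ?_⟩⟩
    · exact hL N F f hN hLF hf α hα
    · have hF : 0 < F := by linarith
      have h1 := Pool.Agent.Q39.EP.bad k hk N hN (fun n => Pool.Agent.Q39.EP.e (f n))
        (fun n => (Pool.Agent.Q39.EP.e_norm _).le) (F ^ ε) (Real.rpow_pos_of_pos hF ε)
      refine (measure_mono ?_).trans (h1.trans ?_)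
      · rintro α ⟨h2, N1, N2, h3, h4, h5⟩
        refine ⟨h2, N1, N2, h3, h4, ?_⟩
        simp only [hee, hph, Pool.Agent.Q39.EP.e_add] at h5
        exact h5
      · apply ENNReal.ofReal_le_ofReal
        apply le_of_eq
        rw [div_eq_mul_inv]
        congr 1
        rw [← Real.rpow_natCast, ← Real.rpow_mul hF.le, ← Real.rpow_neg hF.le]
        congr 1
        push_cast
        ring

end Pool.Agent.Results.MP_493793_nt.PolynomialPerturbations
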