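import Pool.Agent.Q39.EP.TrFinal

/-!
# Exponent pairs: the Hausdorff dimension of the set of the bad translates of an admissible function

Let `g` be a function which is admissible at every scale `N ≥ 2` with the parameter `F(N) ≥ N^2`, and
let `r : ℕ → ℝ` be arbitrary (for instance `r = 0`). For every `ε > 0` the set of the `u ≥ 0` for which the
bound `K N^(1/2) F(N)^ε` for the sums of `e(g(n + u) + r(n))` over all intervals with `N ≤ n`,
`n + u ≤ 2N`, fails for every constant `K` has Hausdorff dimension at most `1 - 2ε`.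

Outline. For one scale the measure of the bad set is `O((log N)^3 F(N)^(-2ε))` (library files
`Pool/Agent/Y933/KI`). The second differences of `g(x + u) - g(x + u')` show, by partial summation, that
large values persist on intervals of length `N / F(N)`, after at most one term of the sum is dropped.
So the bad set at the scale `N` is covered by few intervals of this length.
-/

set_option autoImplicit false

namespace Pool.Agent.Results.MP_493793_nt.TranslatesDimension

open MeasureTheory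

/-- `g` satisfies on `[N, 2N]` the inequalities of the problem with the parameter `F` and the constants
`c j`, `C j`. -/
def Admissible (c C : ℕ → ℝ) (N F : ℝ) (g : ℝ → ℝ) : Prop :=
  ContDiffOn ℝ (⊤ : ℕ∞) g (Set.Icc N (2 * N)) ∧
  ∀ j : ℕ, ∀ x ∈ Set.Icc N (2 * N),
    c j * F / N ^ j ≤ |iteratedDerivWithin j g (Set.Icc N (2 * N)) x| ∧
    |iteratedDerivWithin j g (Set.Icc N (2 * N)) x| ≤ C j * F / N ^ j

/-- `e(x) = exp(2πix)` -/
noncomputable def e (x : ℝ) : ℂ := Complex.exp (2 * (Real.pi : ℂ) * Complex.I * (x : ℂ))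

/-- For the translate by `u` the bound `K N^(1/2) F(N)^ε` holds with some constant `K`, for all `N ≥ 2`
and all intervals with `N ≤ n` and `n + u ≤ 2N`. -/
def BoundHolds (r : ℕ → ℝ) (g F : ℝ → ℝ) (ε u : ℝ) : Prop :=
  ∃ K : ℝ, ∀ N : ℝ, 2 ≤ N → ∀ N1 N2 : ℕ, N ≤ N1 → (N2 : ℝ) + u ≤ 2 * N →
    ‖∑ n ∈ Finset.Icc N1 N2, e (g ((n : ℝ) + u) + r n)‖ ≤ K * N ^ (1 / 2 : ℝ) * F N ^ ε

theorem result (c C : ℕ → ℝ) (hc : ∀ j, 0 < c j) (F g : ℝ → ℝ)
    (hF : ∀ N : ℝ, 2 ≤ N → N ^ 2 ≤ F N)
    (hg : ∀ N : ℝ, 2 ≤ N → Admissible c C N (F N) g) :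
    ∀ r : ℕ → ℝ, ∀ ε : ℝ, 0 < ε →
      dimH {u : ℝ | 0 ≤ u ∧ ¬ BoundHolds r g F ε u} ≤ ENNReal.ofReal (1 - 2 * ε) := by
  intro r ε hε
  exact Pool.Agent.Q39.EP.dim_tfails c C hc F g hF hg r ε hε

end Pool.Agent.Results.MP_493793_nt.TranslatesDimension
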